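import Pool.Agent.H57.KuC

set_option autoImplicit false

namespace Pool.Agent.Results.MP_0f79e1_lc.IffDiamondPlus

open Cardinal Order Set Pool.Agent.H57.Ku

/-- The well-order `ω₁`. -/
abbrev W1 : Type := (ℵ₁ : Cardinal.{0}).ord.ToType

/-- Kurepa trees. -/
def Kurepa (T : Type) [PartialOrder T] : Prop := KTree W1 T ℵ₁ ∧ ℵ_ 2 ≤ #(Br W1 T)

/-- Some continuous map sends `[T]` onto `2^ω₁`, for the cone topologies. -/
def Strong (T : Type) [PartialOrder T] : Prop :=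
  ∃ F : Br W1 T → W1 → Bool, @Continuous _ _ (coneBr W1 T) (cone2 W1) F ∧ F.Surjective

theorem aux {W : Type} [LinearOrder W] [WellFoundedLT W] {κ : Cardinal.{0}} (hκ : succ ℵ₀ = κ)
    (R : H82.LadA.Reg W κ) (hD : DiamondPlus W κ) :
    ∃ (T : Type) (_ : PartialOrder T), KTree W T κ ∧ ∃ F : Br W T → W → Bool,
      @Continuous _ _ (coneBr W T) (cone2 W) F ∧ F.Surjective := by
  subst hκ
  obtain ⟨U, _, h1, h2⟩ := aron1 R
  exact main le_rfl R hD h1 h2

theorem result :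
    (∃ (T : Type) (_ : PartialOrder T), Kurepa T ∧ Strong T) ↔ DiamondPlus W1 ℵ₁ := by
  have R := H82.LadA.reg_toType isRegular_aleph_one
  refine ⟨fun ⟨T, _, h, F, h1, h2⟩ => conv R aleph0_lt_aleph_one h.1 h1 h2, fun h => ?_⟩
  obtain ⟨T, i, h1, F, h2, h3⟩ := aux succ_aleph0 R h
  refine ⟨T, i, ⟨h1, le_trans ?_ (mk_le_of_surjective h3)⟩, F, h2, h3⟩
  have e : ℵ_ 2 = succ (ℵ₁ : Cardinal.{0}) := by
    rw [← aleph_succ, Order.succ_eq_add_one, one_add_one_eq_two]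
  rw [e]
  exact (succ_le_of_lt (cantor _)).trans_eq (by simp)

end Pool.Agent.Results.MP_0f79e1_lc.IffDiamondPlus
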